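import Mathlib.Algebra.Order.Field.Basic
import Mathlib.Data.Real.Basic
import Mathlib.Tactic.Ring
import Mathlib.Tactic.Positivity
import Mathlib.Tactic.Linarith
import Mathlib.Tactic.FieldSimp

/-!
# Parameter boxes by tensor Bernstein corners

`Par M` is the parameter vector of the certificate format C3. `tr p e A B C` is the true vector
for `p = K/N`, `e = 1/N`, where `tt`, `tgp`, `tgn` are affine functions `A, B, C` of `(p, e)`.
All entries are polynomials of degree at most two in `p` and at most two in `e`, so on a box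
`[p0,p1] × [e0,e1]` the true vector is a nonnegative combination of the nine polarised vectors
`corner`. `cornerZ` are integer multiples of these for `p0 = P0/D`, `p1 = P1/D`, `e0 = E0/F`,
`e1 = E1/F`. Everything linear in the parameters which is nonnegative at the nine corners is
nonnegative on the box (`dot_nonneg_of_corners`, `dot_nonneg_of_cornersZ`).
-/

set_option autoImplicit false

namespace Pool.Agent.MMS39

/-- parameter vector of the format C3 -/
structure Par (M : Type*) where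
  te : M
  tpq : M
  tee : M
  tp : M
  tq : M
  tt : M
  tl : M
  tgp : M
  tgn : M
  t1 : M
  t2 : M
  t3 : M
  t4 : M
  t5 : M
deriving DecidableEq

/-- affine function `c0 + c1 p + c2 e` of the two parameters -/
structure Aff (M : Type*) where
  c0 : M
  c1 : M
  c2 : M
deriving DecidableEq

namespace Par

/-- apply a function to all entries -/
def map {M N : Type*} (f : M → N) (T : Par M) : Par N :=
  ⟨f T.te, f T.tpq, f T.tee, f T.tp, f T.tq, f T.tt, f T.tl, f T.tgp, f T.tgn, f T.t1, f T.t2,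
    f T.t3, f T.t4, f T.t5⟩

section ring

variable {R : Type*} [CommRing R]

/-- the pairing of a coefficient vector with a parameter vector -/
def dot (k T : Par R) : R :=
  k.te * T.te + k.tpq * T.tpq + k.tee * T.tee + k.tp * T.tp + k.tq * T.tq + k.tt * T.tt +
    k.tl * T.tl + k.tgp * T.tgp + k.tgn * T.tgn + k.t1 * T.t1 + k.t2 * T.t2 + k.t3 * T.t3 +
    k.t4 * T.t4 + k.t5 * T.t5

/-- parameter vector from the values `1, P, P², e, e², P e` (polarised) -/
def mk6 (one P PP e ee Pe : R) (A B C : Aff R) : Par R where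
  te := e
  tpq := P - PP
  tee := ee
  tp := P
  tq := one - P
  tt := A.c0 * one + A.c1 * P + A.c2 * e
  tl := one
  tgp := B.c0 * one + B.c1 * P + B.c2 * e
  tgn := C.c0 * one + C.c1 * P + C.c2 * e
  t1 := one - e
  t2 := P - e
  t3 := one - 3 * e + 2 * ee
  t4 := P - PP - e + Pe
  t5 := PP - 3 * Pe + 2 * ee

/-- the true parameters for `p = K/N`, `e = 1/N` -/
def tr (p e : R) (A B C : Aff R) : Par R where
  te := e
  tpq := p * (1 - p)
  tee := e ^ 2
  tp := p
  tq := 1 - p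
  tt := A.c0 + A.c1 * p + A.c2 * e
  tl := 1
  tgp := B.c0 + B.c1 * p + B.c2 * e
  tgn := C.c0 + C.c1 * p + C.c2 * e
  t1 := 1 - e
  t2 := p - e
  t3 := (1 - e) * (1 - 2 * e)
  t4 := (p - e) * (1 - p)
  t5 := (p - e) * (p - 2 * e)

theorem tr_eq_mk6 (p e : R) (A B C : Aff R) :
    tr p e A B C = mk6 1 p (p ^ 2) e (e ^ 2) (p * e) A B C := by
  simp only [tr, mk6, Par.mk.injEq, true_and]
  refine ⟨by ring, by ring, by ring, by ring, by ring, by ring, by ring⟩

/-- `dot` against `mk6` is linear in the six values -/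
theorem dot_mk6 (k : Par R) (one P PP e ee Pe : R) (A B C : Aff R) :
    dot k (mk6 one P PP e ee Pe A B C) =
      one * (k.tq + k.tt * A.c0 + k.tl + k.tgp * B.c0 + k.tgn * C.c0 + k.t1 + k.t3) +
      P * (k.tpq + k.tp - k.tq + k.tt * A.c1 + k.tgp * B.c1 + k.tgn * C.c1 + k.t2 + k.t4) +
      PP * (-k.tpq - k.t4 + k.t5) +
      e * (k.te + k.tt * A.c2 + k.tgp * B.c2 + k.tgn * C.c2 - k.t1 - k.t2 - 3 * k.t3 - k.t4) +
      ee * (k.tee + 2 * k.t3 + 2 * k.t5) + Pe * (k.t4 - 3 * k.t5) := by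
  simp only [dot, mk6]
  ring

theorem dot_map_mul (k T : Par R) (r : R) : dot k (T.map (fun m => r * m)) = r * dot k T := by
  simp only [dot, map]
  ring

end ring

section field

variable {R : Type*} [Field R] [LinearOrder R] [IsStrictOrderedRing R]

/-- the nine corners: `(x1, x2)` are the two arguments of the polar form in `p`, `(y1, y2)` the two
arguments in `e` -/
def corner (x1 x2 y1 y2 : R) (A B C : Aff R) : Par R :=
  mk6 1 ((x1 + x2) / 2) (x1 * x2) ((y1 + y2) / 2) (y1 * y2) ((x1 + x2) / 2 * ((y1 + y2) / 2)) A B C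

theorem dot_tr_eq (k : Par R) (A B C : Aff R) (p0 p1 e0 e1 s t : R) :
    dot k (tr ((1 - s) * p0 + s * p1) ((1 - t) * e0 + t * e1) A B C) =
      (1 - s) ^ 2 * (1 - t) ^ 2 * dot k (corner p0 p0 e0 e0 A B C) +
      (1 - s) ^ 2 * (2 * (1 - t) * t) * dot k (corner p0 p0 e0 e1 A B C) +
      (1 - s) ^ 2 * t ^ 2 * dot k (corner p0 p0 e1 e1 A B C) +
      2 * (1 - s) * s * (1 - t) ^ 2 * dot k (corner p0 p1 e0 e0 A B C) +
      2 * (1 - s) * s * (2 * (1 - t) * t) * dot k (corner p0 p1 e0 e1 A B C) +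
      2 * (1 - s) * s * t ^ 2 * dot k (corner p0 p1 e1 e1 A B C) +
      s ^ 2 * (1 - t) ^ 2 * dot k (corner p1 p1 e0 e0 A B C) +
      s ^ 2 * (2 * (1 - t) * t) * dot k (corner p1 p1 e0 e1 A B C) +
      s ^ 2 * t ^ 2 * dot k (corner p1 p1 e1 e1 A B C) := by
  rw [tr_eq_mk6]
  simp only [corner, dot_mk6]
  ring

theorem exists_ratio {a b x : R} (h0 : a ≤ x) (h1 : x ≤ b) :
    ∃ s : R, 0 ≤ s ∧ s ≤ 1 ∧ x = (1 - s) * a + s * b := by
  rcases eq_or_lt_of_le (h0.trans h1) with h | h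
  · refine ⟨0, le_refl _, zero_le_one, ?_⟩
    have : x = a := le_antisymm (by rw [h]; exact h1) h0
    rw [this]; ring
  · have hb : 0 < b - a := sub_pos.2 h
    refine ⟨(x - a) / (b - a), div_nonneg (sub_nonneg.2 h0) hb.le, ?_, ?_⟩
    · rw [div_le_one hb]; linarith
    · field_simp
      ring

/-- A linear function of the parameters which is nonnegative at the nine corners is nonnegative at
the true parameters of every point of the box. -/
theorem dot_nonneg_of_corners (k : Par R) (A B C : Aff R) {p0 p1 e0 e1 p e : R}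
    (hp0 : p0 ≤ p) (hp1 : p ≤ p1) (he0 : e0 ≤ e) (he1 : e ≤ e1)
    (h00 : 0 ≤ dot k (corner p0 p0 e0 e0 A B C)) (h01 : 0 ≤ dot k (corner p0 p0 e0 e1 A B C))
    (h02 : 0 ≤ dot k (corner p0 p0 e1 e1 A B C)) (h10 : 0 ≤ dot k (corner p0 p1 e0 e0 A B C))
    (h11 : 0 ≤ dot k (corner p0 p1 e0 e1 A B C)) (h12 : 0 ≤ dot k (corner p0 p1 e1 e1 A B C))
    (h20 : 0 ≤ dot k (corner p1 p1 e0 e0 A B C)) (h21 : 0 ≤ dot k (corner p1 p1 e0 e1 A B C))
    (h22 : 0 ≤ dot k (corner p1 p1 e1 e1 A B C)) :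
    0 ≤ dot k (tr p e A B C) := by
  obtain ⟨s, hs0, hs1, rfl⟩ := exists_ratio hp0 hp1
  obtain ⟨t, ht0, ht1, rfl⟩ := exists_ratio he0 he1
  rw [dot_tr_eq]
  have hs : 0 ≤ 1 - s := sub_nonneg.2 hs1
  have ht : 0 ≤ 1 - t := sub_nonneg.2 ht1
  positivity

end field

section integer

/-- Integer corners: `p`-arguments `X1/D, X2/D`, `e`-arguments `Y1/F, Y2/F`, affine functions with
integer numerators over the denominator `G`. The common scale is `4 D² F² G`. -/
def cornerZ (D F G : ℤ) (A B C : Aff ℤ) (X1 X2 Y1 Y2 : ℤ) : Par ℤ :=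
  let one := 4 * D ^ 2 * F ^ 2
  let P := 2 * D * F ^ 2 * (X1 + X2)
  let PP := 4 * F ^ 2 * (X1 * X2)
  let e := 2 * D ^ 2 * F * (Y1 + Y2)
  let ee := 4 * D ^ 2 * (Y1 * Y2)
  let Pe := D * F * ((X1 + X2) * (Y1 + Y2))
  { te := G * e
    tpq := G * (P - PP)
    tee := G * ee
    tp := G * P
    tq := G * (one - P)
    tt := A.c0 * one + A.c1 * P + A.c2 * e
    tl := G * one
    tgp := B.c0 * one + B.c1 * P + B.c2 * e
    tgn := C.c0 * one + C.c1 * P + C.c2 * e
    t1 := G * (one - e)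
    t2 := G * (P - e)
    t3 := G * (one - 3 * e + 2 * ee)
    t4 := G * (P - PP - e + Pe)
    t5 := G * (PP - 3 * Pe + 2 * ee) }

variable {R : Type*} [Field R] [LinearOrder R] [IsStrictOrderedRing R]

/-- affine function with integer numerators over `G` -/
def affR (G : ℤ) (A : Aff ℤ) : Aff R := ⟨A.c0 / G, A.c1 / G, A.c2 / G⟩

theorem cornerZ_cast {D F G : ℤ} (hD : D ≠ 0) (hF : F ≠ 0) (hG : G ≠ 0) (A B C : Aff ℤ)
    (X1 X2 Y1 Y2 : ℤ) :
    (cornerZ D F G A B C X1 X2 Y1 Y2).map (fun m : ℤ => (m : R)) =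
      (corner ((X1 : R) / D) ((X2 : R) / D) ((Y1 : R) / F) ((Y2 : R) / F) (affR G A) (affR G B)
        (affR G C)).map (fun m : R => (4 * D ^ 2 * F ^ 2 * G : R) * m) := by
  have h1 : (D : R) ≠ 0 := by exact_mod_cast hD
  have h2 : (F : R) ≠ 0 := by exact_mod_cast hF
  have h3 : (G : R) ≠ 0 := by exact_mod_cast hG
  simp only [cornerZ, corner, mk6, map, affR, Par.mk.injEq]
  push_cast
  refine ⟨?_, ?_, ?_, ?_, ?_, ?_, ?_, ?_, ?_, ?_, ?_, ?_, ?_, ?_⟩ <;> field_simp <;> ring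

/-- the nine corners as a list -/
def cornersZ (D F G : ℤ) (A B C : Aff ℤ) (P0 P1 E0 E1 : ℤ) : List (Par ℤ) :=
  [cornerZ D F G A B C P0 P0 E0 E0, cornerZ D F G A B C P0 P0 E0 E1,
    cornerZ D F G A B C P0 P0 E1 E1, cornerZ D F G A B C P0 P1 E0 E0,
    cornerZ D F G A B C P0 P1 E0 E1, cornerZ D F G A B C P0 P1 E1 E1,
    cornerZ D F G A B C P1 P1 E0 E0, cornerZ D F G A B C P1 P1 E0 E1,
    cornerZ D F G A B C P1 P1 E1 E1]

/-- The integer version: `Ts` is the list of corner vectors used by the checker, `g > 0` a common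
factor removed from them. -/
theorem dot_nonneg_of_cornersZ (k : Par R) {D F G g : ℤ} (hD : 0 < D) (hF : 0 < F) (hG : 0 < G)
    (hg : 0 < g) (A B C : Aff ℤ) {P0 P1 E0 E1 : ℤ} {p e : R}
    (hp0 : (P0 : R) / D ≤ p) (hp1 : p ≤ (P1 : R) / D) (he0 : (E0 : R) / F ≤ e)
    (he1 : e ≤ (E1 : R) / F)
    (Ts : List (Par ℤ)) (hTs : Ts.map (fun T => T.map (fun m => g * m)) =
      cornersZ D F G A B C P0 P1 E0 E1)
    (h : ∀ T ∈ Ts, 0 ≤ dot k (T.map (fun m : ℤ => (m : R)))) :
    0 ≤ dot k (tr p e (affR G A) (affR G B) (affR G C)) := by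
  have hDR : (0 : R) < D := by exact_mod_cast hD
  have hFR : (0 : R) < F := by exact_mod_cast hF
  have hGR : (0 : R) < G := by exact_mod_cast hG
  have hgR : (0 : R) < g := by exact_mod_cast hg
  have hS : (0 : R) < 4 * D ^ 2 * F ^ 2 * G := by positivity
  have key : ∀ X1 X2 Y1 Y2 : ℤ,
      cornerZ D F G A B C X1 X2 Y1 Y2 ∈ cornersZ D F G A B C P0 P1 E0 E1 →
      0 ≤ dot k (corner ((X1 : R) / D) ((X2 : R) / D) ((Y1 : R) / F) ((Y2 : R) / F) (affR G A)
        (affR G B) (affR G C)) := by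
    intro X1 X2 Y1 Y2 hm
    rw [← hTs, List.mem_map] at hm
    obtain ⟨T, hT, hTe⟩ := hm
    have h1 := h T hT
    have h2 : (T.map (fun m => g * m)).map (fun m : ℤ => (m : R)) =
        (T.map (fun m : ℤ => (m : R))).map (fun m : R => (g : R) * m) := by
      simp only [map]
      push_cast
      rfl
    have h3 := cornerZ_cast (R := R) hD.ne' hF.ne' hG.ne' A B C X1 X2 Y1 Y2
    rw [← hTe, h2] at h3
    have h4 := congrArg (dot k) h3
    rw [dot_map_mul, dot_map_mul] at h4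
    have h5 : 0 ≤ (4 * D ^ 2 * F ^ 2 * G : R) * dot k
        (corner ((X1 : R) / D) ((X2 : R) / D) ((Y1 : R) / F) ((Y2 : R) / F) (affR G A)
          (affR G B) (affR G C)) := by
      rw [← h4]; positivity
    exact nonneg_of_mul_nonneg_right h5 hS
  refine dot_nonneg_of_corners k _ _ _ hp0 hp1 he0 he1 (key _ _ _ _ ?_) (key _ _ _ _ ?_)
    (key _ _ _ _ ?_) (key _ _ _ _ ?_) (key _ _ _ _ ?_) (key _ _ _ _ ?_) (key _ _ _ _ ?_)
    (key _ _ _ _ ?_) (key _ _ _ _ ?_) <;> simp [cornersZ]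

end integer

end Par

end Pool.Agent.MMS39
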