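import Pool.Agent.MMSChk.Defs

/-!
# The traversal of the pairs of cells in `check`
-/

set_option autoImplicit false

namespace Pool.Agent.MMS39

open Pool.Agent.MMSChk

/-- the test of one pair of cells -/
def PairGood (X : Ctx) (r s : RD) : Prop :=
  skip X.C.A r.ii s.ii = true ∨ (pairOk X r s = true ∧ tailOk X r s = true)

theorem rowOk_mem {X : Ctx} {r : RD} {l : List RD} (h : rowOk X r l = true) :
    ∀ s ∈ l, PairGood X r s := by
  induction l with
  | nil => intro s hs; exact absurd hs (List.not_mem_nil)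
  | cons a l ih =>
    have h' : (and (cond (skip X.C.A r.ii a.ii) true (and (pairOk X r a) (tailOk X r a)))
      (rowOk X r l)) = true := h
    rw [Bool.and_eq_true] at h'
    obtain ⟨h1, h2⟩ := h'
    intro s hs
    rcases List.mem_cons.1 hs with rfl | hs
    · rcases hsk : skip X.C.A r.ii s.ii with _ | _
      · rw [hsk, cond_false, Bool.and_eq_true] at h1
        exact Or.inr h1
      · exact Or.inl hsk
    · exact ih h2 s hs

theorem allOk_mem {X : Ctx} {l : List ARow} : ∀ {ii : ℕ} {acc : List RD},
    allOk X ii acc l = true → ∀ (k : ℕ) (hk : k < l.length),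
      (∀ s ∈ acc, PairGood X (mkRD X (ii + k) l[k]) s) ∧
      ∀ (j : ℕ) (hj : j ≤ k), PairGood X (mkRD X (ii + k) l[k])
        (mkRD X (ii + j) (l[j]'(lt_of_le_of_lt hj hk))) := by
  induction l with
  | nil => intro ii acc _ k hk; exact absurd hk (Nat.not_lt_zero k)
  | cons R l ih =>
    intro ii acc h k hk
    have h' : (and (rowOk X (mkRD X ii R) (mkRD X ii R :: acc))
      (allOk X (Nat.succ ii) (mkRD X ii R :: acc) l)) = true := h
    rw [Bool.and_eq_true] at h'
    obtain ⟨h1, h2⟩ := h'
    have hrow := rowOk_mem h1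
    rcases k with _ | k
    · refine ⟨fun s hs => hrow s (List.mem_cons_of_mem _ hs), fun j hj => ?_⟩
      obtain rfl : j = 0 := Nat.le_zero.1 hj
      exact hrow _ List.mem_cons_self
    · have hk' : k < l.length := by simpa using hk
      obtain ⟨g1, g2⟩ := ih h2 k hk'
      have e : ∀ m, Nat.succ ii + m = ii + (m + 1) := fun m => by
        rw [Nat.succ_eq_add_one]; omega
      rw [e k] at g1 g2
      refine ⟨fun s hs => g1 s (List.mem_cons_of_mem _ hs), fun j hj => ?_⟩
      rcases j with _ | j
      · exact g1 _ List.mem_cons_self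
      · have := g2 j (by omega)
        rw [e j] at this
        exact this

/-- From the check: sizes, and the tests of all pairs of cells. -/
theorem check_pairs {C : Cert} {p : Par} (h : check C p = true) (d : ARow) :
    sizeOk C = true ∧ 0 ≤ p.t1.v ∧ ∀ ii jj : ℕ, jj ≤ ii → ii < C.rows.length →
      PairGood (mkCtx C p) (mkRD (mkCtx C p) ii (C.rows.getD ii d))
        (mkRD (mkCtx C p) jj (C.rows.getD jj d)) := by
  have h' : (and (and (sizeOk C) (Z.nonneg p.t1)) (allOk (mkCtx C p) 0 [] C.rows)) = true := h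
  rw [Bool.and_eq_true, Bool.and_eq_true] at h'
  refine ⟨h'.1.1, Z.of_nonneg h'.1.2, fun ii jj hj hi => ?_⟩
  have := (allOk_mem h'.2 ii hi).2 jj hj
  rw [Nat.zero_add, Nat.zero_add] at this
  rw [List.getD_eq_getElem _ _ hi, List.getD_eq_getElem _ _ (lt_of_le_of_lt hj hi)]
  exact this

/-- the number of rows -/
theorem rows_length {C : Cert} (h : sizeOk C = true) : C.rows.length = 2 * C.A := by
  simp only [sizeOk, Bool.and_eq_true] at h
  exact Nat.eq_of_beq_eq_true h.1.1.1

/-- The same with the numbers `i, j` of the cells. -/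
theorem check_cells {C : Cert} {p : Par} (h : check C p = true) (d : ARow) {i j : ℤ}
    (h1 : -(C.A : ℤ) ≤ j) (h2 : j ≤ i) (h3 : i < C.A) :
    ∃ ii jj : ℕ, (ii : ℤ) = i + C.A ∧ (jj : ℤ) = j + C.A ∧
      PairGood (mkCtx C p) (mkRD (mkCtx C p) ii (C.rows.getD (i + C.A).toNat d))
        (mkRD (mkCtx C p) jj (C.rows.getD (j + C.A).toNat d)) := by
  obtain ⟨hs, -, hp⟩ := check_pairs h d
  have hl := rows_length hs
  refine ⟨(i + C.A).toNat, (j + C.A).toNat, by omega, by omega, hp _ _ (by omega) (by omega)⟩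

end Pool.Agent.MMS39
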