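import Mathlib.Algebra.Order.Ring.Defs
import Mathlib.Tactic.Ring
import Mathlib.Tactic.Positivity

/-!
# Bernstein numbers of a cubic on the tetrahedron `1 ≥ x ≥ y ≥ z ≥ 0`

`P20 M` holds the 20 coefficients of a polynomial of degree at most three in `x, y, z`.
`bern add` is straight-line code with 45 additions: the substitutions `1 = l0 + x`, `x = l1 + y`,
`y = l2 + z` in the homogeneous cubic. Its 20 outputs are the coefficients of the monomials of
degree three in `l0, l1, l2, l3 = 1 - x, x - y, y - z, z`, so if all are nonnegative the cubic is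
nonnegative on the tetrahedron (`eval_nonneg`). `bern_map` transports the code along any map that
commutes with the additions.
-/

set_option autoImplicit false

namespace Pool.Agent.MMS39

/-- the 20 coefficients of a cubic in `x, y, z` (`k` is the constant coefficient) -/
structure P20 (M : Type*) where
  k : M
  x : M
  y : M
  z : M
  xx : M
  xy : M
  xz : M
  yy : M
  yz : M
  zz : M
  xxx : M
  xxy : M
  xxz : M
  xyy : M
  xyz : M
  xzz : M
  yyy : M
  yyz : M
  yzz : M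
  zzz : M

namespace P20

section code

variable {M N : Type*}

/-- apply a function to all coefficients -/
def map (f : M → N) (c : P20 M) : P20 N :=
  ⟨f c.k, f c.x, f c.y, f c.z, f c.xx, f c.xy, f c.xz, f c.yy, f c.yz, f c.zz, f c.xxx, f c.xxy,
    f c.xxz, f c.xyy, f c.xyz, f c.xzz, f c.yyy, f c.yyz, f c.yzz, f c.zzz⟩

/-- apply a binary function to all pairs of coefficients -/
def map2 {K : Type*} (f : M → N → K) (c : P20 M) (d : P20 N) : P20 K :=
  ⟨f c.k d.k, f c.x d.x, f c.y d.y, f c.z d.z, f c.xx d.xx, f c.xy d.xy, f c.xz d.xz, f c.yy d.yy,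
    f c.yz d.yz, f c.zz d.zz, f c.xxx d.xxx, f c.xxy d.xxy, f c.xxz d.xxz, f c.xyy d.xyy,
    f c.xyz d.xyz, f c.xzz d.xzz, f c.yyy d.yyy, f c.yyz d.yyz, f c.yzz d.yzz, f c.zzz d.zzz⟩

/-- all coefficients satisfy `p` -/
def All (p : M → Prop) (c : P20 M) : Prop :=
  p c.k ∧ p c.x ∧ p c.y ∧ p c.z ∧ p c.xx ∧ p c.xy ∧ p c.xz ∧ p c.yy ∧ p c.yz ∧ p c.zz ∧ p c.xxx ∧
    p c.xxy ∧ p c.xxz ∧ p c.xyy ∧ p c.xyz ∧ p c.xzz ∧ p c.yyy ∧ p c.yyz ∧ p c.yzz ∧ p c.zzz

/-- Boolean test of all coefficients -/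
def all (p : M → Bool) (c : P20 M) : Bool :=
  p c.k && p c.x && p c.y && p c.z && p c.xx && p c.xy && p c.xz && p c.yy && p c.yz && p c.zz &&
    p c.xxx && p c.xxy && p c.xxz && p c.xyy && p c.xyz && p c.xzz && p c.yyy && p c.yyz &&
    p c.yzz && p c.zzz

theorem all_iff (p : M → Bool) (c : P20 M) : c.all p = true ↔ c.All (fun m => p m = true) := by
  simp only [all, All, Bool.and_eq_true, and_assoc]

theorem All.imp {p q : M → Prop} (h : ∀ m, p m → q m) {c : P20 M} (hc : c.All p) : c.All q := by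
  obtain ⟨h1, h2, h3, h4, h5, h6, h7, h8, h9, h10, h11, h12, h13, h14, h15, h16, h17, h18, h19,
    h20⟩ := hc
  exact ⟨h _ h1, h _ h2, h _ h3, h _ h4, h _ h5, h _ h6, h _ h7, h _ h8, h _ h9, h _ h10, h _ h11,
    h _ h12, h _ h13, h _ h14, h _ h15, h _ h16, h _ h17, h _ h18, h _ h19, h _ h20⟩

theorem All_map {p : N → Prop} (f : M → N) (c : P20 M) :
    (c.map f).All p ↔ c.All (fun m => p (f m)) := Iff.rfl

/-- first step: `1 = l0 + x` -/
def step1 (add : M → M → M) (c : P20 M) : P20 M :=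
  let x1 := add c.x c.k
  let xx1 := add c.xx x1
  let xxx := add c.xxx xx1
  let x2 := add x1 c.k
  let xx2 := add xx1 x2
  let x3 := add x2 c.k
  let xy1 := add c.xy c.y
  let xxy := add c.xxy xy1
  let xy2 := add xy1 c.y
  let xz1 := add c.xz c.z
  let xxz := add c.xxz xz1
  let xz2 := add xz1 c.z
  let xyy := add c.xyy c.yy
  let xyz := add c.xyz c.yz
  let xzz := add c.xzz c.zz
  ⟨c.k, x3, c.y, c.z, xx2, xy2, xz2, c.yy, c.yz, c.zz, xxx, xxy, xxz, xyy, xyz, xzz,
    c.yyy, c.yyz, c.yzz, c.zzz⟩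

/-- second step: `x = l1 + y` -/
def step2 (add : M → M → M) (c : P20 M) : P20 M :=
  let xxy1 := add c.xxy c.xxx
  let xyy1 := add c.xyy xxy1
  let yyy := add c.yyy xyy1
  let xxy2 := add xxy1 c.xxx
  let xyy2 := add xyy1 xxy2
  let xxy3 := add xxy2 c.xxx
  let xy1 := add c.xy c.xx
  let yy := add c.yy xy1
  let xy2 := add xy1 c.xx
  let xyz1 := add c.xyz c.xxz
  let yyz := add c.yyz xyz1
  let xyz2 := add xyz1 c.xxz
  let y := add c.y c.x
  let yz := add c.yz c.xz
  let yzz := add c.yzz c.xzz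
  ⟨c.k, c.x, y, c.z, c.xx, xy2, c.xz, yy, yz, c.zz, c.xxx, xxy3, c.xxz, xyy2, xyz2, c.xzz,
    yyy, yyz, yzz, c.zzz⟩

/-- third step: `y = l2 + z` -/
def step3 (add : M → M → M) (c : P20 M) : P20 M :=
  let yyz1 := add c.yyz c.yyy
  let yzz1 := add c.yzz yyz1
  let zzz := add c.zzz yzz1
  let yyz2 := add yyz1 c.yyy
  let yzz2 := add yzz1 yyz2
  let yyz3 := add yyz2 c.yyy
  let yz1 := add c.yz c.yy
  let zz := add c.zz yz1
  let yz2 := add yz1 c.yy
  let xyz1 := add c.xyz c.xyy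
  let xzz := add c.xzz xyz1
  let xyz2 := add xyz1 c.xyy
  let z := add c.z c.y
  let xz := add c.xz c.xy
  let xxz := add c.xxz c.xxy
  ⟨c.k, c.x, c.y, z, c.xx, c.xy, xz, c.yy, yz2, zz, c.xxx, c.xxy, xxz, c.xyy, xyz2, xzz,
    c.yyy, yyz3, yzz2, zzz⟩

/-- the 20 Bernstein numbers (times multinomial coefficients) of the tetrahedron
`1 ≥ x ≥ y ≥ z ≥ 0` -/
def bern (add : M → M → M) (c : P20 M) : P20 M :=
  step3 add (step2 add (step1 add c))

theorem bern_map (add : M → M → M) (add' : N → N → N) (f : M → N)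
    (h : ∀ a b, f (add a b) = add' (f a) (f b)) (c : P20 M) :
    (bern add c).map f = bern add' (c.map f) := by
  simp only [bern, step3, step2, step1, map, h]

/-- exchange of the variables `x` and `y` -/
def swapXY (c : P20 M) : P20 M :=
  ⟨c.k, c.y, c.x, c.z, c.yy, c.xy, c.yz, c.xx, c.xz, c.zz, c.yyy, c.xyy, c.yyz, c.xxy, c.xyz,
    c.yzz, c.xxx, c.xxz, c.xzz, c.zzz⟩

/-- exchange of the variables `y` and `z` -/
def swapYZ (c : P20 M) : P20 M :=
  ⟨c.k, c.x, c.z, c.y, c.xx, c.xz, c.xy, c.zz, c.yz, c.yy, c.xxx, c.xxz, c.xxy, c.xzz, c.xyz,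
    c.xyy, c.zzz, c.yzz, c.yyz, c.yyy⟩

theorem map_swapXY (f : M → N) (c : P20 M) : (c.swapXY).map f = (c.map f).swapXY := rfl

theorem map_swapYZ (f : M → N) (c : P20 M) : (c.swapYZ).map f = (c.map f).swapYZ := rfl

end code

section value

variable {R : Type*} [CommRing R]

/-- the value of the cubic -/
def eval (c : P20 R) (x y z : R) : R :=
  c.k + c.x * x + c.y * y + c.z * z + c.xx * (x * x) + c.xy * (x * y) + c.xz * (x * z) +
    c.yy * (y * y) + c.yz * (y * z) + c.zz * (z * z) + c.xxx * (x * x * x) + c.xxy * (x * x * y) +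
    c.xxz * (x * x * z) + c.xyy * (x * y * y) + c.xyz * (x * y * z) + c.xzz * (x * z * z) +
    c.yyy * (y * y * y) + c.yyz * (y * y * z) + c.yzz * (y * z * z) + c.zzz * (z * z * z)

/-- the value of the homogeneous cubic at `w = 1 - x`, `x - y`, `y - z`, `z` -/
def hom (c : P20 R) (w x y z : R) : R :=
  c.k * (w * w * w) + c.x * (w * w * x) + c.y * (w * w * y) + c.z * (w * w * z) +
    c.xx * (w * (x * x)) + c.xy * (w * (x * y)) + c.xz * (w * (x * z)) + c.yy * (w * (y * y)) +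
    c.yz * (w * (y * z)) + c.zz * (w * (z * z)) + c.xxx * (x * x * x) + c.xxy * (x * x * y) +
    c.xxz * (x * x * z) + c.xyy * (x * y * y) + c.xyz * (x * y * z) + c.xzz * (x * z * z) +
    c.yyy * (y * y * y) + c.yyz * (y * y * z) + c.yzz * (y * z * z) + c.zzz * (z * z * z)

theorem hom_one (c : P20 R) (x y z : R) : c.hom 1 x y z = c.eval x y z := by
  unfold hom eval
  ring

theorem hom_step1 (c : P20 R) (l x y z : R) :
    c.hom (l + x) x y z = (step1 (· + ·) c).hom l x y z := by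
  simp only [hom, step1]
  ring

theorem hom_step2 (c : P20 R) (w l y z : R) :
    c.hom w (l + y) y z = (step2 (· + ·) c).hom w l y z := by
  simp only [hom, step2]
  ring

theorem hom_step3 (c : P20 R) (w x l z : R) :
    c.hom w x (l + z) z = (step3 (· + ·) c).hom w x l z := by
  simp only [hom, step3]
  ring

theorem eval_eq_bern (c : P20 R) (x y z : R) :
    c.eval x y z = (bern (· + ·) c).hom (1 - x) (x - y) (y - z) z := by
  have h1 : c.eval x y z = c.hom ((1 - x) + x) x y z := by rw [sub_add_cancel, hom_one]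
  have h2 : (step1 (· + ·) c).hom (1 - x) x y z =
      (step1 (· + ·) c).hom (1 - x) ((x - y) + y) y z := by rw [sub_add_cancel]
  have h3 : (step2 (· + ·) (step1 (· + ·) c)).hom (1 - x) (x - y) y z =
      (step2 (· + ·) (step1 (· + ·) c)).hom (1 - x) (x - y) ((y - z) + z) z := by
    rw [sub_add_cancel]
  rw [h1, hom_step1, h2, hom_step2, h3, hom_step3]
  rfl

theorem eval_swapXY (c : P20 R) (x y z : R) : c.swapXY.eval y x z = c.eval x y z := by
  unfold eval swapXY
  ring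

theorem eval_swapYZ (c : P20 R) (x y z : R) : c.swapYZ.eval x z y = c.eval x y z := by
  unfold eval swapYZ
  ring

theorem eval_add (c d : P20 R) (x y z : R) :
    (map2 (· + ·) c d).eval x y z = c.eval x y z + d.eval x y z := by
  simp only [eval, map2]
  ring

theorem eval_sub (c d : P20 R) (x y z : R) :
    (map2 (· - ·) c d).eval x y z = c.eval x y z - d.eval x y z := by
  simp only [eval, map2]
  ring

theorem eval_mul (r : R) (c : P20 R) (x y z : R) :
    (map (fun m => r * m) c).eval x y z = r * c.eval x y z := by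
  simp only [eval, map]
  ring

variable [LinearOrder R] [IsStrictOrderedRing R]

theorem hom_nonneg {c : P20 R} (hc : c.All (fun m => 0 ≤ m)) {w x y z : R} (hw : 0 ≤ w)
    (hx : 0 ≤ x) (hy : 0 ≤ y) (hz : 0 ≤ z) : 0 ≤ c.hom w x y z := by
  obtain ⟨h1, h2, h3, h4, h5, h6, h7, h8, h9, h10, h11, h12, h13, h14, h15, h16, h17, h18, h19,
    h20⟩ := hc
  unfold hom
  positivity

/-- If all Bernstein numbers are nonnegative, so is the cubic on `1 ≥ x ≥ y ≥ z ≥ 0`. -/
theorem eval_nonneg {c : P20 R} (hc : (bern (· + ·) c).All (fun m => 0 ≤ m)) {x y z : R}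
    (h1 : x ≤ 1) (h2 : y ≤ x) (h3 : z ≤ y) (h4 : 0 ≤ z) : 0 ≤ c.eval x y z := by
  rw [eval_eq_bern]
  exact hom_nonneg hc (sub_nonneg.2 h1) (sub_nonneg.2 h2) (sub_nonneg.2 h3) h4

/-- Integer version: the cubic with integer coefficients has nonnegative values at real points. -/
theorem eval_cast_nonneg {c : P20 ℤ} (hc : (bern (· + ·) c).All (fun m => 0 ≤ m)) {x y z : R}
    (h1 : x ≤ 1) (h2 : y ≤ x) (h3 : z ≤ y) (h4 : 0 ≤ z) :
    0 ≤ (c.map (fun m : ℤ => (m : R))).eval x y z := by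
  refine eval_nonneg ?_ h1 h2 h3 h4
  rw [← bern_map (· + ·) (· + ·) (fun m : ℤ => (m : R)) (fun a b => Int.cast_add a b)]
  rw [All_map]
  exact hc.imp fun m hm => Int.cast_nonneg hm

/-- The six orders of `x, y, z` in `[0, 1]`: one polynomial for each order. -/
theorem eval_nonneg_of_orders {x y z : R} (hx : 0 ≤ x) (hx1 : x ≤ 1) (hy : 0 ≤ y) (hy1 : y ≤ 1)
    (hz : 0 ≤ z) (hz1 : z ≤ 1) (F : R)
    (h1 : z ≤ y → y ≤ x → ∃ c : P20 R, (bern (· + ·) c).All (fun m => 0 ≤ m) ∧ F = c.eval x y z)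
    (h2 : z ≤ x → x ≤ y → ∃ c : P20 R,
      (bern (· + ·) c.swapXY).All (fun m => 0 ≤ m) ∧ F = c.eval x y z)
    (h3 : y ≤ z → z ≤ x → ∃ c : P20 R,
      (bern (· + ·) c.swapYZ).All (fun m => 0 ≤ m) ∧ F = c.eval x y z)
    (h4 : x ≤ z → z ≤ y → ∃ c : P20 R,
      (bern (· + ·) c.swapXY.swapYZ).All (fun m => 0 ≤ m) ∧ F = c.eval x y z)
    (h5 : y ≤ x → x ≤ z → ∃ c : P20 R,
      (bern (· + ·) c.swapYZ.swapXY).All (fun m => 0 ≤ m) ∧ F = c.eval x y z)
    (h6 : x ≤ y → y ≤ z → ∃ c : P20 R,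
      (bern (· + ·) c.swapXY.swapYZ.swapXY).All (fun m => 0 ≤ m) ∧ F = c.eval x y z) :
    0 ≤ F := by
  rcases le_total x y with hxy | hxy <;> rcases le_total y z with hyz | hyz <;>
    rcases le_total x z with hxz | hxz
  · obtain ⟨c, hc, rfl⟩ := h6 hxy hyz
    rw [← eval_swapXY, ← eval_swapYZ, ← eval_swapXY]
    exact eval_nonneg hc hz1 hyz hxy hx
  · obtain ⟨c, hc, rfl⟩ := h6 hxy hyz
    rw [← eval_swapXY, ← eval_swapYZ, ← eval_swapXY]
    exact eval_nonneg hc hz1 hyz hxy hx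
  · obtain ⟨c, hc, rfl⟩ := h4 hxz hyz
    rw [← eval_swapXY, ← eval_swapYZ]
    exact eval_nonneg hc hy1 hyz hxz hx
  · obtain ⟨c, hc, rfl⟩ := h2 hxz hxy
    rw [← eval_swapXY]
    exact eval_nonneg hc hy1 hxy hxz hz
  · obtain ⟨c, hc, rfl⟩ := h5 hxy hxz
    rw [← eval_swapYZ, ← eval_swapXY]
    exact eval_nonneg hc hz1 hxz hxy hy
  · obtain ⟨c, hc, rfl⟩ := h3 hyz hxz
    rw [← eval_swapYZ]
    exact eval_nonneg hc hx1 hxz hyz hy
  · obtain ⟨c, hc, rfl⟩ := h1 hyz hxy
    exact eval_nonneg hc hx1 hxy hyz hz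
  · obtain ⟨c, hc, rfl⟩ := h1 hyz hxy
    exact eval_nonneg hc hx1 hxy hyz hz

end value

end P20

end Pool.Agent.MMS39
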