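import Pool.Agent.MMS39.Traverse

/-!
# Skipped pairs of cells contain no point of the domain
-/

set_option autoImplicit false

namespace Pool.Agent.MMS39

open Pool.Agent.MMSChk

theorem absI_le {A ii : ℕ} {a : ℝ} (ha : (ii : ℤ) = ⌊a⌋ + A) : ((absI A ii : ℕ) : ℝ) ≤ |a| := by
  have h1 : (⌊a⌋ : ℝ) ≤ a := Int.floor_le a
  have h2 : a < ⌊a⌋ + 1 := Int.lt_floor_add_one a
  unfold absI
  rcases h : Nat.ble A ii with _ | _
  · rw [cond_false]
    have hlt : ii < A := by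
      by_contra hc
      have : Nat.ble A ii = true := Nat.ble_eq_true_of_le (by omega)
      rw [this] at h; exact Bool.noConfusion h
    have e : ((Nat.pred (Nat.sub A ii) : ℕ) : ℤ) = -⌊a⌋ - 1 := by
      have : Nat.pred (Nat.sub A ii) = A - ii - 1 := rfl
      rw [this]; omega
    have e' : ((Nat.pred (Nat.sub A ii) : ℕ) : ℝ) = -(⌊a⌋ : ℝ) - 1 := by exact_mod_cast e
    rw [e']
    have h3 := neg_le_abs a
    linarith
  · rw [cond_true]
    have hle : A ≤ ii := Nat.le_of_ble_eq_true h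
    have e : ((Nat.sub ii A : ℕ) : ℤ) = ⌊a⌋ := by
      have : Nat.sub ii A = ii - A := rfl
      rw [this]; omega
    have e' : ((Nat.sub ii A : ℕ) : ℝ) = (⌊a⌋ : ℝ) := by exact_mod_cast e
    rw [e']
    exact h1.trans (le_abs_self a)

theorem skip_false {A ii jj : ℕ} {a b : ℝ} (ha : (ii : ℤ) = ⌊a⌋ + A) (hb : (jj : ℤ) = ⌊b⌋ + A)
    (hab : a ^ 2 + b ^ 2 ≤ (A : ℝ) ^ 2) : skip A ii jj = false := by
  rcases h : skip A ii jj with _ | _
  · rfl
  · exfalso
    have h1 : Nat.lt (Nat.mul A A) (Nat.add (Nat.mul (absI A ii) (absI A ii))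
        (Nat.mul (absI A jj) (absI A jj))) := by
      unfold skip at h
      exact Nat.le_of_ble_eq_true h
    have h2 : A * A < absI A ii * absI A ii + absI A jj * absI A jj := h1
    have h3 : (A : ℝ) * A < (absI A ii : ℕ) * (absI A ii : ℕ) + (absI A jj : ℕ) * (absI A jj : ℕ) := by
      exact_mod_cast h2
    have a1 := absI_le ha
    have b1 := absI_le hb
    have a0 : (0 : ℝ) ≤ (absI A ii : ℕ) := Nat.cast_nonneg _
    have b0 : (0 : ℝ) ≤ (absI A jj : ℕ) := Nat.cast_nonneg _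
    have a2 : ((absI A ii : ℕ) : ℝ) * (absI A ii : ℕ) ≤ a ^ 2 := by
      rw [← sq_abs a, sq]
      exact mul_self_le_mul_self a0 a1
    have b2 : ((absI A jj : ℕ) : ℝ) * (absI A jj : ℕ) ≤ b ^ 2 := by
      rw [← sq_abs b, sq]
      exact mul_self_le_mul_self b0 b1
    have : (A : ℝ) ^ 2 = A * A := sq _
    linarith

/-- For a point of the domain the pair of its cells has passed both tests. -/
theorem check_point {C : Cert} {p : Par} (h : check C p = true) (d : ARow) {a b : ℝ}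
    (ha : |a| < C.A) (hb : |b| < C.A) (hba : b ≤ a) (hab : a ^ 2 + b ^ 2 ≤ (C.A : ℝ) ^ 2) :
    ∃ ii jj : ℕ, (ii : ℤ) = ⌊a⌋ + C.A ∧ (jj : ℤ) = ⌊b⌋ + C.A ∧ ii < 2 * C.A ∧ jj ≤ ii ∧
      pairOk (mkCtx C p) (mkRD (mkCtx C p) ii (C.rows.getD (⌊a⌋ + C.A).toNat d))
        (mkRD (mkCtx C p) jj (C.rows.getD (⌊b⌋ + C.A).toNat d)) = true ∧
      tailOk (mkCtx C p) (mkRD (mkCtx C p) ii (C.rows.getD (⌊a⌋ + C.A).toNat d))
        (mkRD (mkCtx C p) jj (C.rows.getD (⌊b⌋ + C.A).toNat d)) = true := by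
  have ha' := abs_lt.1 ha
  have hb' := abs_lt.1 hb
  have f1 : -(C.A : ℤ) ≤ ⌊b⌋ := by rw [Int.le_floor]; push_cast; linarith
  have f2 : ⌊a⌋ < (C.A : ℤ) := by rw [Int.floor_lt]; push_cast; linarith
  have f3 : ⌊b⌋ ≤ ⌊a⌋ := Int.floor_le_floor hba
  obtain ⟨ii, jj, hi, hj, hg⟩ := check_cells h d f1 f3 f2
  refine ⟨ii, jj, hi, hj, by omega, by omega, ?_⟩
  rcases hg with hg | hg
  · exfalso
    have : skip C.A ii jj = false := skip_false hi hj hab
    have hg' : skip C.A ii jj = true := hg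
    rw [this] at hg'
    exact Bool.noConfusion hg'
  · exact hg

end Pool.Agent.MMS39
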